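import Pool.Agent.W8.LS.Stm

set_option autoImplicit false

open scoped Topology ContDiff
open Complex (I)

namespace Pool.Agent.W756.LS

open Pool.Agent.W8.LS

theorem gab_eq (α β : ℝ → ℝ) : Gab α β = fun ζ : ℂ =>
    ((α (ζ.re * ζ.re + ζ.im * ζ.im) * ζ.re : ℝ) : ℂ) +
      ((β (ζ.re * ζ.re + ζ.im * ζ.im) * ζ.im : ℝ) : ℂ) * I := by
  funext ζ
  have h : ‖ζ‖ ^ 2 = ζ.re * ζ.re + ζ.im * ζ.im := by
    rw [Complex.sq_norm, Complex.normSq_apply]
  simp only [Gab, h]

theorem cre : ContDiff ℝ ∞ (fun ζ : ℂ => ζ.re) := Complex.reCLM.contDiff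

theorem cim : ContDiff ℝ ∞ (fun ζ : ℂ => ζ.im) := Complex.imCLM.contDiff

theorem cof {f : ℂ → ℝ} (hf : ContDiff ℝ ∞ f) : ContDiff ℝ ∞ (fun ζ : ℂ => ((f ζ : ℝ) : ℂ)) :=
  Complex.ofRealCLM.contDiff.comp hf

theorem gab_smooth {α β : ℝ → ℝ} (hα : ContDiff ℝ ∞ α) (hβ : ContDiff ℝ ∞ β) :
    ContDiff ℝ ∞ (Gab α β) := by
  rw [gab_eq]
  have hn : ContDiff ℝ ∞ (fun ζ : ℂ => ζ.re * ζ.re + ζ.im * ζ.im) :=
    (cre.mul cre).add (cim.mul cim)
  exact (cof ((hα.comp hn).mul cre)).add ((cof ((hβ.comp hn).mul cim)).mul contDiff_const)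

/-- derivative of one coordinate along a line -/
theorem coord_deriv {α : ℝ → ℝ} (hα : ContDiff ℝ ∞ α) (X Y u v Z w : ℝ) :
    HasDerivAt (fun t : ℝ => α ((X + t * u) * (X + t * u) + (Y + t * v) * (Y + t * v)) *
      (Z + t * w))
      (deriv α (X * X + Y * Y) * (2 * (X * u + Y * v)) * Z + α (X * X + Y * Y) * w) 0 := by
  have h1 : HasDerivAt (fun t : ℝ => X + t * u) u 0 := by
    simpa using ((hasDerivAt_id (0 : ℝ)).mul_const u).const_add X
  have h2 : HasDerivAt (fun t : ℝ => Y + t * v) v 0 := by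
    simpa using ((hasDerivAt_id (0 : ℝ)).mul_const v).const_add Y
  have h3 : HasDerivAt (fun t : ℝ => Z + t * w) w 0 := by
    simpa using ((hasDerivAt_id (0 : ℝ)).mul_const w).const_add Z
  have h4 : HasDerivAt (fun t : ℝ => (X + t * u) * (X + t * u) + (Y + t * v) * (Y + t * v))
      (2 * (X * u + Y * v)) 0 := by
    have := (h1.mul h1).add (h2.mul h2)
    refine this.congr_deriv ?_
    ring
  have h5 : HasDerivAt α (deriv α (X * X + Y * Y)) (X * X + Y * Y) :=
    ((hα.differentiable (by simp)) _).hasDerivAt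
  have h6 : HasDerivAt (fun t : ℝ => α ((X + t * u) * (X + t * u) + (Y + t * v) * (Y + t * v)))
      (deriv α (X * X + Y * Y) * (2 * (X * u + Y * v))) 0 := by
    have h5' : HasDerivAt α (deriv α (X * X + Y * Y))
        ((fun t : ℝ => (X + t * u) * (X + t * u) + (Y + t * v) * (Y + t * v)) 0) := by
      simpa using h5
    exact h5'.comp 0 h4
  have := h6.mul h3
  refine this.congr_deriv ?_
  simp

theorem rad_deriv {α : ℝ → ℝ} (hα : ContDiff ℝ ∞ α) (s : ℝ) (hpos : 0 < α s)
    (hd : 0 < deriv (fun s => s * α s ^ 2) s) : 0 < α s + 2 * s * deriv α s := by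
  have h5 : HasDerivAt α (deriv α s) s := ((hα.differentiable (by simp)) _).hasDerivAt
  have h6 : HasDerivAt (fun s => s * α s ^ 2) (1 * α s ^ 2 + s * (2 * α s * deriv α s)) s := by
    have := (hasDerivAt_id s).mul (h5.pow 2)
    refine this.congr_deriv ?_
    simp
  rw [h6.deriv] at hd
  by_contra hcon
  push Not at hcon
  nlinarith

theorem GabImm_proof : GabImm := by
  intro α β h
  obtain ⟨hα, hβ, hα0, hβ0, hαd, hβd, -, -⟩ := h
  refine ⟨gab_smooth hα hβ, ?_⟩
  intro x a hxa
  have hdiff : DifferentiableAt ℝ (Gab α β) x :=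
    (gab_smooth hα hβ).differentiable (by simp) x
  have hline : HasDerivAt (fun t : ℝ => x + t • a) a 0 := by
    simpa using ((hasDerivAt_id (0 : ℝ)).smul_const a).const_add x
  have hcomp : HasDerivAt (fun t : ℝ => Gab α β (x + t • a)) 0 0 := by
    have h1 : HasFDerivAt (Gab α β) (fderiv ℝ (Gab α β) x) (x + (0 : ℝ) • a) := by
      simpa using hdiff.hasFDerivAt
    have h2 := h1.comp_hasDerivAt (0 : ℝ) hline
    rw [hxa] at h2
    exact h2
  have hre : HasDerivAt (fun t : ℝ => (Gab α β (x + t • a)).re) 0 0 := by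
    have := (Complex.reCLM.hasFDerivAt (x := Gab α β (x + (0 : ℝ) • a))).comp_hasDerivAt 0 hcomp
    exact this.congr_deriv (by simp)
  have him : HasDerivAt (fun t : ℝ => (Gab α β (x + t • a)).im) 0 0 := by
    have := (Complex.imCLM.hasFDerivAt (x := Gab α β (x + (0 : ℝ) • a))).comp_hasDerivAt 0 hcomp
    exact this.congr_deriv (by simp)
  have hre' : (fun t : ℝ => (Gab α β (x + t • a)).re) = fun t : ℝ =>
      α ((x.re + t * a.re) * (x.re + t * a.re) + (x.im + t * a.im) * (x.im + t * a.im)) *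
        (x.re + t * a.re) := by
    funext t
    rw [gab_eq]
    simp
  have him' : (fun t : ℝ => (Gab α β (x + t • a)).im) = fun t : ℝ =>
      β ((x.re + t * a.re) * (x.re + t * a.re) + (x.im + t * a.im) * (x.im + t * a.im)) *
        (x.im + t * a.im) := by
    funext t
    rw [gab_eq]
    simp
  rw [hre'] at hre
  rw [him'] at him
  have e1 := hre.unique (coord_deriv hα x.re x.im a.re a.im x.re a.re)
  have e2 := him.unique (coord_deriv hβ x.re x.im a.re a.im x.im a.im)
  set X := x.re with hX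
  set Y := x.im with hY
  set u := a.re with hu
  set v := a.im with hv
  set s := X * X + Y * Y with hs
  have hs0 : 0 ≤ s := add_nonneg (mul_self_nonneg _) (mul_self_nonneg _)
  have hA := hα0 s hs0
  have hB := hβ0 s hs0
  have hA' := rad_deriv hα s hA (hαd s hs0)
  have hB' := rad_deriv hβ s hB (hβd s hs0)
  set A := α s
  set B := β s
  set A' := deriv α s
  set B' := deriv β s
  set p := X * u + Y * v with hp
  have hkey : p * (A * B + 2 * A' * B * X ^ 2 + 2 * A * B' * Y ^ 2) = 0 := by
    have : X * B * (A' * (2 * p) * X + A * u) + Y * A * (B' * (2 * p) * Y + B * v) = 0 := by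
      rw [← e1, ← e2]; ring
    have h2 : A * B * p = A * B * (X * u + Y * v) := by rw [hp]
    linear_combination this + h2
  have hp0 : p = 0 := by
    rcases mul_eq_zero.1 hkey with h0 | h0
    · exact h0
    · exfalso
      by_cases hs1 : s = 0
      · have hX0 : X = 0 := by nlinarith [mul_self_nonneg X, mul_self_nonneg Y]
        have hY0 : Y = 0 := by nlinarith [mul_self_nonneg X, mul_self_nonneg Y]
        rw [hX0, hY0] at h0
        have : 0 < A * B := mul_pos hA hB
        nlinarith
      · have hspos : 0 < s := lt_of_le_of_ne hs0 (Ne.symm hs1)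
        have h1 : 0 ≤ X ^ 2 * (B * (A + 2 * s * A')) := by positivity
        have h2 : 0 ≤ Y ^ 2 * (A * (B + 2 * s * B')) := by positivity
        have h3 : s * (A * B + 2 * A' * B * X ^ 2 + 2 * A * B' * Y ^ 2) =
            X ^ 2 * (B * (A + 2 * s * A')) + Y ^ 2 * (A * (B + 2 * s * B')) := by
          have : s * (A * B) = (X ^ 2 + Y ^ 2) * (A * B) := by rw [hs]; ring
          linear_combination this
        rw [h0, mul_zero] at h3
        have h4 : X ^ 2 * (B * (A + 2 * s * A')) = 0 := by linarith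
        have h5 : Y ^ 2 * (A * (B + 2 * s * B')) = 0 := by linarith
        have h6 : X ^ 2 = 0 := by
          rcases mul_eq_zero.1 h4 with h | h
          · exact h
          · exact absurd h (mul_pos hB hA').ne'
        have h7 : Y ^ 2 = 0 := by
          rcases mul_eq_zero.1 h5 with h | h
          · exact h
          · exact absurd h (mul_pos hA hB').ne'
        apply hs1
        rw [hs]
        nlinarith
  rw [hp0] at e1 e2
  have hu0 : u = 0 := by
    have : A * u = 0 := by linarith
    rcases mul_eq_zero.1 this with h | h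
    · exact absurd h hA.ne'
    · exact h
  have hv0 : v = 0 := by
    have : B * v = 0 := by linarith
    rcases mul_eq_zero.1 this with h | h
    · exact absurd h hB.ne'
    · exact h
  exact Complex.ext hu0 hv0

end Pool.Agent.W756.LS
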